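import Pool.Agent.helper54.TS.Spec

/-!
# Project ts (MP_2b41e9_nt): row SFA (the embeddings of `ℚ(β)`)
-/

set_option autoImplicit false

open Polynomial Finset

noncomputable section

namespace Pool.Agent.TS

open Pool.Agent.PSA (IsSalem Indep Fac)

/-- the field `ℚ(β)` -/
abbrev SFA_K (β : ℝ) : Type := IntermediateField.adjoin ℚ ({β} : Set ℝ)

lemma SFA_root {β : ℝ} {L : Type} [Field L] [Algebra ℚ L] (φ : SFA_K β →ₐ[ℚ] L) :
    aeval (φ (gen β)) (minpoly ℚ β) = 0 := by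
  rw [aeval_algHom_apply]
  have : aeval (gen β) (minpoly ℚ β) = 0 := by
    rw [← IntermediateField.minpoly_gen ℚ β]
    exact minpoly.aeval _ _
  rw [this, map_zero]

lemma SFA_ex {β : ℝ} (hint : IsIntegral ℤ β) {L : Type} [Field L] [Algebra ℚ L] (z : L)
    (hz : aeval z (minpoly ℚ β) = 0) : ∃ φ : SFA_K β →ₐ[ℚ] L, φ (gen β) = z := by
  have hintQ : IsIntegral ℚ β := hint.tower_top
  have hne : minpoly ℚ β ≠ 0 := minpoly.ne_zero hintQ
  have hmem : z ∈ (minpoly ℚ β).aroots L := by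
    rw [mem_aroots]
    exact ⟨hne, hz⟩
  refine ⟨(IntermediateField.algHomAdjoinIntegralEquiv ℚ hintQ).symm ⟨z, hmem⟩, ?_⟩
  exact IntermediateField.algHomAdjoinIntegralEquiv_symm_apply_gen ℚ hintQ _

lemma SFA_ext {β : ℝ} (hint : IsIntegral ℤ β) (φ ψ : SFA_K β →+* ℂ)
    (h : φ (gen β) = ψ (gen β)) : φ = ψ := by
  have hintQ : IsIntegral ℚ β := hint.tower_top
  have h1 : φ.toRatAlgHom = ψ.toRatAlgHom := by
    refine (IntermediateField.adjoin.powerBasis hintQ).algHom_ext ?_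
    have : (IntermediateField.adjoin.powerBasis hintQ).gen = gen β :=
      IntermediateField.adjoin.powerBasis_gen hintQ
    rw [this]
    exact h
  ext x
  exact DFunLike.congr_fun h1 x

lemma SFA_Q {β : ℝ} (hint : IsIntegral ℤ β) {L : Type} [Field L] [Algebra ℚ L] (z : L) :
    aeval z (minpoly ℚ β) = eval z ((minpoly ℤ β).map (Int.castRingHom L)) := by
  rw [minpoly.isIntegrallyClosed_eq_field_fractions' ℚ hint, aeval_map_algebraMap, aeval_def,
    eval₂_eq_eval_map]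
  rfl

/-- the roots -/
def SFA_rho {k : ℕ} (β : ℝ) (w : Fin k → Circle) : Bool ⊕ (Fin k × Bool) → ℂ
  | Sum.inl true => (β : ℂ)
  | Sum.inl false => ((β⁻¹ : ℝ) : ℂ)
  | Sum.inr (j, true) => (w j : ℂ)
  | Sum.inr (j, false) => ((w j : ℂ)⁻¹)

lemma SFA_poly (hQQC : PSA.QQC_stmt) {k : ℕ} {β : ℝ} {w : Fin k → Circle}
    (hF : Fac (minpoly ℤ β) β w) :
    (minpoly ℤ β).map (Int.castRingHom ℂ) = ∏ t, (X - C (SFA_rho β w t)) := by
  have h1 : (minpoly ℤ β).map (Int.castRingHom ℂ) =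
      ((minpoly ℤ β).map (Int.castRingHom ℝ)).map (algebraMap ℝ ℂ) := by
    rw [Polynomial.map_map]
    congr 1
  unfold Fac at hF
  rw [h1, hF, Polynomial.map_mul, Polynomial.map_mul, hQQC k w, Fintype.prod_sum_type,
    Fintype.prod_bool, Fintype.prod_prod_type]
  simp only [Fintype.prod_bool, Polynomial.map_sub, Polynomial.map_X, Polynomial.map_C]
  rfl

/-- the embeddings -/
def SFA_E {k : ℕ} {β : ℝ} (σ : SFA_K β →+* ℝ) (φ : Fin k → SFA_K β →+* ℂ) :
    Bool ⊕ (Fin k × Bool) → (SFA_K β →+* ℂ)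
  | Sum.inl true => Complex.ofRealHom.comp (inc β)
  | Sum.inl false => Complex.ofRealHom.comp σ
  | Sum.inr (j, true) => φ j
  | Sum.inr (j, false) => (starRingEnd ℂ).comp (φ j)

theorem SFA (hREC : PSA.REC_stmt) (hIND : PSA.IND_stmt) (hQQC : PSA.QQC_stmt) : SFA_stmt := by
  intro β hβ
  obtain ⟨k, hk, hdeg, w, hF⟩ := hREC β hβ
  have hI := hIND β k w hβ hF
  have hint : IsIntegral ℤ β := hβ.1
  have hintQ : IsIntegral ℚ β := hint.tower_top
  have hpoly := SFA_poly hQQC hF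
  -- the real root
  have hinv : eval β⁻¹ ((minpoly ℤ β).map (Int.castRingHom ℝ)) = 0 := by
    have hF' := hF
    unfold Fac at hF'
    rw [hF']
    simp
  have hinvI : IsIntegral ℤ β⁻¹ := by
    refine ⟨minpoly ℤ β, minpoly.monic hint, ?_⟩
    rw [eval₂_eq_eval_map]
    exact hinv
  obtain ⟨σ', hσ'⟩ := SFA_ex hint (β⁻¹ : ℝ) (by rw [SFA_Q hint]; exact hinv)
  have hroot : ∀ t, aeval (SFA_rho β w t) (minpoly ℚ β) = 0 := by
    intro t
    rw [SFA_Q hint, hpoly, eval_prod]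
    refine Finset.prod_eq_zero (Finset.mem_univ t) ?_
    simp
  have hφ : ∀ j : Fin k, ∃ φ : SFA_K β →ₐ[ℚ] ℂ, φ (gen β) = (w j : ℂ) :=
    fun j => SFA_ex hint (w j : ℂ) (hroot (Sum.inr (j, true)))
  choose φ' hφ' using hφ
  set σ : SFA_K β →+* ℝ := σ'.toRingHom with hσ
  set φ : Fin k → SFA_K β →+* ℂ := fun j => (φ' j).toRingHom with hφ
  have hσg : σ (gen β) = β⁻¹ := hσ'
  have hφg : ∀ j, φ j (gen β) = (w j : ℂ) := hφ'
  have hE : ∀ t, SFA_E σ φ t (gen β) = SFA_rho β w t := by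
    intro t
    rcases t with (_ | _) | ⟨j, _ | _⟩
    · show Complex.ofRealHom (σ (gen β)) = ((β⁻¹ : ℝ) : ℂ)
      rw [hσg]
      rfl
    · rfl
    · show (starRingEnd ℂ) (φ j (gen β)) = ((w j : ℂ)⁻¹)
      rw [hφg, ← Circle.coe_inv_eq_conj]
      exact Circle.coe_inv (w j)
    · exact hφg j
  have hinj : Function.Injective (SFA_rho β w) := by
    rw [← Polynomial.separable_prod_X_sub_C_iff, ← hpoly]
    have hirr : Irreducible (minpoly ℚ β) := minpoly.irreducible hintQ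
    have hsep : (minpoly ℚ β).Separable := hirr.separable
    have h2 : (minpoly ℤ β).map (Int.castRingHom ℂ) = (minpoly ℚ β).map (algebraMap ℚ ℂ) := by
      rw [minpoly.isIntegrallyClosed_eq_field_fractions' ℚ hint, Polynomial.map_map]
      congr 1
    rw [h2]
    exact hsep.map
  have hbij : Function.Bijective (SFA_E σ φ) := by
    constructor
    · intro t t' h
      apply hinj
      rw [← hE, ← hE, h]
    · intro ψ
      have h1 : aeval (ψ (gen β)) (minpoly ℚ β) = 0 := SFA_root ψ.toRatAlgHom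
      rw [SFA_Q hint, hpoly, eval_prod, Finset.prod_eq_zero_iff] at h1
      obtain ⟨t, -, ht⟩ := h1
      refine ⟨t, SFA_ext hint _ _ ?_⟩
      rw [hE]
      rw [eval_sub, eval_X, eval_C, sub_eq_zero] at ht
      exact ht.symm
  exact ⟨k, σ, φ, w, Equiv.ofBijective _ hbij, hI, hinvI, hσg, hφg, rfl, rfl, fun j => rfl,
    fun j => rfl⟩

end Pool.Agent.TS
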